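import Pool.Agent.K4H59.TL.Spec

set_option autoImplicit false
set_option maxHeartbeats 400000

open Set

namespace Pool.Agent.K4H59.TL

open Pool.Agent.K4H72.Til (IsPolygon ShareEdge IsTiling Tile Derivable Adj HasLocEig)

private theorem ker_line {f₀ : ℂ →L[ℝ] ℝ} {d z : ℂ} (hf : f₀ ≠ 0) (hd : f₀ d = 0) (hd0 : d ≠ 0)
    (hz : f₀ z = 0) : ∃ t : ℝ, z = t • d := by
  have exp : ∀ w : ℂ, f₀ w = w.re * f₀ 1 + w.im * f₀ Complex.I := by
    intro w
    have h1 : w = w.re • (1 : ℂ) + w.im • Complex.I := by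
      apply Complex.ext <;> simp
    conv_lhs => rw [h1]
    rw [map_add, map_smul, map_smul, smul_eq_mul, smul_eq_mul]
  have hab : f₀ 1 ≠ 0 ∨ f₀ Complex.I ≠ 0 := by
    by_contra hcon
    push Not at hcon
    apply hf
    ext w
    rw [exp w, hcon.1, hcon.2]
    simp
  rw [exp] at hd hz
  have cross : z.re * d.im - z.im * d.re = 0 := by
    rcases hab with h | h
    · have : f₀ 1 * (z.re * d.im - z.im * d.re) = 0 := by
        linear_combination d.im * hz - z.im * hd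
      exact (mul_eq_zero.1 this).resolve_left h
    · have : f₀ Complex.I * (z.re * d.im - z.im * d.re) = 0 := by
        linear_combination z.re * hd - d.re * hz
      exact (mul_eq_zero.1 this).resolve_left h
  have hn : d.re * d.re + d.im * d.im ≠ 0 := by
    intro h
    apply hd0
    have h1 : d.re = 0 := by nlinarith [mul_self_nonneg d.re, mul_self_nonneg d.im]
    have h2 : d.im = 0 := by nlinarith [mul_self_nonneg d.re, mul_self_nonneg d.im]
    exact Complex.ext h1 h2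
  refine ⟨(z.re * d.re + z.im * d.im) / (d.re * d.re + d.im * d.im), ?_⟩
  apply Complex.ext
  · rw [Complex.real_smul, Complex.mul_re, Complex.ofReal_re, Complex.ofReal_im, zero_mul, sub_zero,
      div_mul_eq_mul_div, eq_div_iff hn]
    linear_combination d.im * cross
  · rw [Complex.real_smul, Complex.mul_im, Complex.ofReal_re, Complex.ofReal_im, zero_mul, add_zero,
      div_mul_eq_mul_div, eq_div_iff hn]
    linear_combination (-d.re) * cross

private theorem scal {s t α κ : ℝ} (hs : 0 < s * α) (ht : 0 < t * α) (h : s * κ ≤ s * α) :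
    t * κ ≤ t * α := by
  have hα : α ≠ 0 := by rintro rfl; simp at hs
  have hst : 0 < s * t := by
    have h1 : 0 < (s * t) * (α * α) := by
      have := mul_pos hs ht
      nlinarith
    exact pos_of_mul_pos_left h1 (mul_self_nonneg α)
  have hs0 : s ≠ 0 := by rintro rfl; simp at hs
  have hs2 : 0 < s * s := mul_self_pos.2 hs0
  by_contra hcon
  push Not at hcon
  have h2 : 0 < s * s * (t * κ - t * α) := mul_pos hs2 (by linarith)
  have h3 : 0 ≤ (s * t) * (s * α - s * κ) := mul_nonneg hst.le (by linarith)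
  nlinarith

private theorem arith {u v α β : ℝ} (hu : 0 < u) (hv : 0 < v) (hα : α ≠ 0) (hβ : β ≠ 0)
    (hA : ∀ t, u ≤ t * α → t * α ≤ 2 * u → v ≤ (t - 1) * β ∧ (t - 1) * β ≤ 2 * v)
    (hB : ∀ t, v ≤ (t - 1) * β → (t - 1) * β ≤ 2 * v → u ≤ t * α ∧ t * α ≤ 2 * u) :
    0 < α ∧ α = 3 * u := by
  obtain ⟨x, hx⟩ : ∃ x, x * α = u := ⟨u / α, div_mul_cancel₀ u hα⟩
  obtain ⟨y, hy⟩ : ∃ y, y * β = v := ⟨v / β, div_mul_cancel₀ v hβ⟩
  obtain ⟨a1, a1'⟩ := hA x (by linarith) (by linarith)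
  obtain ⟨a2, a2'⟩ := hA (2 * x) (by nlinarith) (by nlinarith)
  obtain ⟨b1, b1'⟩ := hB (1 + y) (by nlinarith) (by nlinarith)
  obtain ⟨b2, b2'⟩ := hB (1 + 2 * y) (by nlinarith) (by nlinarith)
  rcases lt_or_gt_of_ne hβ with hb | hb
  · have c1 : x - 1 ≤ y := by
      have : (x - 1) * (-β) ≤ y * (-β) := by linarith
      exact le_of_mul_le_mul_right this (neg_pos.2 hb)
    have c2 : 2 * x - 1 ≤ y := by
      have : (2 * x - 1) * (-β) ≤ y * (-β) := by linarith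
      exact le_of_mul_le_mul_right this (neg_pos.2 hb)
    rcases lt_or_gt_of_ne hα with ha | ha
    · exfalso
      have d1 : 1 + y ≤ x := by
        have : (1 + y) * (-α) ≤ x * (-α) := by linarith
        exact le_of_mul_le_mul_right this (neg_pos.2 ha)
      have d2 : 2 * x ≤ 1 + 2 * y := by
        have : (2 * x) * (-α) ≤ (1 + 2 * y) * (-α) := by linarith
        exact le_of_mul_le_mul_right this (neg_pos.2 ha)
      linarith
    · have d1 : 1 + y ≤ 2 * x := by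
        have : (1 + y) * α ≤ (2 * x) * α := by linarith
        exact le_of_mul_le_mul_right this ha
      have d2 : x ≤ 1 + 2 * y := by
        have : x * α ≤ (1 + 2 * y) * α := by linarith
        exact le_of_mul_le_mul_right this ha
      have c3 : 2 * y ≤ x - 1 := by
        have : (2 * y) * (-β) ≤ (x - 1) * (-β) := by linarith
        exact le_of_mul_le_mul_right this (neg_pos.2 hb)
      have hxv : x = 1 / 3 := by linarith
      refine ⟨ha, ?_⟩
      rw [hxv] at hx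
      linarith
  · exfalso
    have c1 : y ≤ x - 1 := by
      have : y * β ≤ (x - 1) * β := by linarith
      exact le_of_mul_le_mul_right this hb
    have c2 : 2 * x - 1 ≤ 2 * y := by
      have : (2 * x - 1) * β ≤ (2 * y) * β := by linarith
      exact le_of_mul_le_mul_right this hb
    linarith

theorem pc_no_share {K : Set ℂ} {f₀ h h' : ℂ →L[ℝ] ℝ} {j j' : ℕ}
    {O₁ O₂ : ℂ} {H₁ H₂ : Finset (ℂ →L[ℝ] ℝ)} (hf : f₀ ≠ 0) (R1 : Rep K O₁ H₁)
    (R2 : Rep K O₂ H₂) (h12 : f₀ (O₂ - O₁) = 0) (hne : O₁ ≠ O₂) (hB1 : ∀ h ∈ H₁, h (O₂ - O₁) ≤ 1 / 2)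
    (hB2 : ∃ h ∈ H₁, h (O₂ - O₁) = 1 / 2) (hA : Act H₁ f₀ h) (hA' : Act H₂ (-f₀) h') :
    ¬ Share (pc H₁ f₀ O₁ h j) (pc H₂ (-f₀) O₂ h' j') := by
  rintro ⟨e, ⟨hnt, φ₁, c₁, -, -, he₁⟩, ⟨-, φ₂, c₂, -, -, he₂⟩⟩
  obtain ⟨p, hp, q, hq, hpq⟩ := hnt
  obtain ⟨d, hd⟩ : ∃ d, d = O₂ - O₁ := ⟨_, rfl⟩
  rw [← hd] at h12 hB1
  have hd0 : d ≠ 0 := by rw [hd]; exact sub_ne_zero.2 hne.symm
  have mem1 : ∀ x ∈ e, x ∈ pc H₁ f₀ O₁ h j ∧ φ₁ x = c₁ := by
    intro x hx; rw [he₁] at hx; exact hx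
  have mem2 : ∀ x ∈ e, x ∈ pc H₂ (-f₀) O₂ h' j' ∧ φ₂ x = c₂ := by
    intro x hx; rw [he₂] at hx; exact hx
  have hL : ∀ x ∈ e, f₀ (x - O₁) = 0 := by
    intro x hx
    have h1 := (mem1 x hx).1.1
    have h2 := (mem2 x hx).1.1
    have h3 : f₀ (x - O₂) = f₀ (x - O₁) := by
      have : x - O₂ = (x - O₁) - d := by rw [hd]; ring
      rw [this, map_sub, h12, sub_zero]
    rw [ContinuousLinearMap.neg_apply, h3] at h2
    linarith
  obtain ⟨tp, htp⟩ := ker_line hf h12 hd0 (hL p hp)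
  obtain ⟨tq, htq⟩ := ker_line hf h12 hd0 (hL q hq)
  have hp' : p = O₁ + tp • d := by rw [← htp]; ring
  have hq' : q = O₁ + tq • d := by rw [← htq]; ring
  have htpq : tp - tq ≠ 0 := by
    intro hh
    apply hpq
    rw [hp', hq', sub_eq_zero.1 hh]
  have key : ∀ (φ : ℂ →L[ℝ] ℝ) (c : ℝ), φ p = c → φ q = c → ∀ t : ℝ, φ (O₁ + t • d) = c := by
    intro φ c h1 h2 t
    rw [hp', map_add, map_smul, smul_eq_mul] at h1
    rw [hq', map_add, map_smul, smul_eq_mul] at h2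
    have h3 : (tp - tq) * φ d = 0 := by linarith
    have h4 : φ d = 0 := (mul_eq_zero.1 h3).resolve_left htpq
    rw [h4] at h1
    rw [map_add, map_smul, smul_eq_mul, h4]
    linarith
  have in1 := key φ₁ c₁ (mem1 p hp).2 (mem1 q hq).2
  have in2 := key φ₂ c₂ (mem2 p hp).2 (mem2 q hq).2
  have pw : ∀ n : ℕ, (1 / 2 : ℝ) ^ n = 2 * (1 / 2 : ℝ) ^ (n + 1) := by
    intro n; rw [pow_succ]; ring
  have up : ∀ n : ℕ, 0 < (1 / 2 : ℝ) ^ n := fun n => by positivity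
  have sub1 : ∀ t : ℝ, O₁ + t • d - O₁ = t • d := fun t => by ring
  have sub2 : ∀ t : ℝ, O₁ + t • d - O₂ = (t - 1) • d := fun t => by
    rw [sub_smul, one_smul, hd]; ring
  -- membership in the pieces along the line
  have A1 : ∀ t : ℝ, O₁ + t • d ∈ pc H₁ f₀ O₁ h j ↔
      ((∀ k ∈ H₁, t * k d ≤ t * h d) ∧ (1 / 2 : ℝ) ^ (j + 1) ≤ t * h d ∧ t * h d ≤ (1 / 2 : ℝ) ^ j) := by
    intro t
    simp only [pc, mem_setOf_eq, sub1, map_smul, smul_eq_mul, h12, mul_zero, le_refl, true_and]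
  have A2 : ∀ t : ℝ, O₁ + t • d ∈ pc H₂ (-f₀) O₂ h' j' ↔
      ((∀ k ∈ H₂, (t - 1) * k d ≤ (t - 1) * h' d) ∧ (1 / 2 : ℝ) ^ (j' + 1) ≤ (t - 1) * h' d ∧
        (t - 1) * h' d ≤ (1 / 2 : ℝ) ^ j') := by
    intro t
    simp only [pc, mem_setOf_eq, sub2, map_smul, smul_eq_mul, ContinuousLinearMap.neg_apply, h12,
      neg_zero, mul_zero, le_refl, true_and]
  have P1 := (A1 tp).1 (by rw [← hp']; exact (mem1 p hp).1)
  have P2 := (A2 tp).1 (by rw [← hp']; exact (mem2 p hp).1)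
  have hα : h d ≠ 0 := by
    intro h0
    have := P1.2.1
    rw [h0, mul_zero] at this
    exact absurd this (not_le.2 (up _))
  have hβ : h' d ≠ 0 := by
    intro h0
    have := P2.2.1
    rw [h0, mul_zero] at this
    exact absurd this (not_le.2 (up _))
  have hA12 : ∀ t, (1 / 2 : ℝ) ^ (j + 1) ≤ t * h d → t * h d ≤ 2 * (1 / 2 : ℝ) ^ (j + 1) →
      (1 / 2 : ℝ) ^ (j' + 1) ≤ (t - 1) * h' d ∧ (t - 1) * h' d ≤ 2 * (1 / 2 : ℝ) ^ (j' + 1) := by
    intro t h1 h2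
    have hm : O₁ + t • d ∈ pc H₁ f₀ O₁ h j := by
      rw [A1]
      refine ⟨fun k hk => ?_, h1, by rw [pw]; exact h2⟩
      exact scal ((up _).trans_le P1.2.1) ((up _).trans_le h1) (P1.1 k hk)
    have he : O₁ + t • d ∈ e := by rw [he₁]; exact ⟨hm, in1 t⟩
    have h3 := ((A2 t).1 (mem2 _ he).1).2
    exact ⟨h3.1, by rw [← pw]; exact h3.2⟩
  have hA21 : ∀ t, (1 / 2 : ℝ) ^ (j' + 1) ≤ (t - 1) * h' d →
      (t - 1) * h' d ≤ 2 * (1 / 2 : ℝ) ^ (j' + 1) →
      (1 / 2 : ℝ) ^ (j + 1) ≤ t * h d ∧ t * h d ≤ 2 * (1 / 2 : ℝ) ^ (j + 1) := by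
    intro t h1 h2
    have hm : O₁ + t • d ∈ pc H₂ (-f₀) O₂ h' j' := by
      rw [A2]
      refine ⟨fun k hk => ?_, h1, by rw [pw]; exact h2⟩
      exact scal ((up _).trans_le P2.2.1) ((up _).trans_le h1) (P2.1 k hk)
    have he : O₁ + t • d ∈ e := by rw [he₂]; exact ⟨hm, in2 t⟩
    have h3 := ((A1 t).1 (mem1 _ he).1).2
    exact ⟨h3.1, by rw [← pw]; exact h3.2⟩
  obtain ⟨hpos, h3u⟩ := arith (up _) (up _) hα hβ hA12 hA21
  -- h d = 1/2
  obtain ⟨k, hk, hkd⟩ := hB2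
  rw [← hd] at hkd
  have h5 : 1 * k d ≤ 1 * h d := scal ((up _).trans_le P1.2.1) (by linarith) (P1.1 k hk)
  have h6 := hB1 h hA.1
  have h7 : (1 / 2 : ℝ) ^ (j + 1) = 1 / 6 := by linarith
  rcases j with _ | _ | n
  · norm_num at h7
  · norm_num at h7
  · have h8 : (1 / 2 : ℝ) ^ (n + 1 + 1 + 1) ≤ 1 / 8 := by
      have : (1 / 2 : ℝ) ^ n ≤ 1 := pow_le_one₀ (by norm_num) (by norm_num)
      rw [pow_succ, pow_succ, pow_succ]
      linarith
    rw [h7] at h8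
    norm_num at h8

end Pool.Agent.K4H59.TL
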