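import Pool.Agent.K4H72.Til.Spec

set_option autoImplicit false
set_option maxHeartbeats 400000

open Set

namespace Pool.Agent.K4H72.Til

private theorem dirichlet1 {ι : Type} [Fintype ι] (c : ι → ℝ) (ε : ℝ) (hε : 0 < ε) :
    ∃ M : ℕ, 0 < M ∧ ∃ p : ι → ℤ, ∀ i, |(M : ℝ) * c i - p i| ≤ ε := by
  let u : ℕ → (ι → ℝ) := fun m i => Int.fract ((m : ℝ) * c i)
  have hb : ∀ m, u m ∈ Set.Icc (0 : ι → ℝ) 1 := by
    intro m
    refine ⟨fun i => Int.fract_nonneg _, fun i => (Int.fract_lt_one _).le⟩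
  obtain ⟨a, -, φ, hφ, ht⟩ := (isCompact_Icc (a := (0 : ι → ℝ)) (b := 1)).tendsto_subseq hb
  have hc := ht.cauchySeq
  rw [Metric.cauchySeq_iff'] at hc
  obtain ⟨N, hN⟩ := hc ε hε
  have h1 := hN (N + 1) (Nat.le_succ N)
  have h2 : φ N < φ (N + 1) := hφ (Nat.lt_succ_self N)
  refine ⟨φ (N + 1) - φ N, Nat.sub_pos_of_lt h2,
    fun i => ⌊(φ (N + 1) : ℝ) * c i⌋ - ⌊(φ N : ℝ) * c i⌋, fun i => ?_⟩
  have h3 : dist (u (φ (N + 1)) i) (u (φ N) i) ≤ ε := (dist_le_pi_dist _ _ i).trans h1.le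
  rw [Real.dist_eq] at h3
  have h4 : ((φ (N + 1) - φ N : ℕ) : ℝ) = (φ (N + 1) : ℝ) - φ N := by
    rw [Nat.cast_sub h2.le]
  have h5 : ((φ (N + 1) - φ N : ℕ) : ℝ) * c i - ((⌊(φ (N + 1) : ℝ) * c i⌋ - ⌊(φ N : ℝ) * c i⌋ : ℤ) : ℝ)
      = u (φ (N + 1)) i - u (φ N) i := by
    rw [h4]
    simp only [u, Int.fract]
    push_cast
    ring
  rw [h5]
  exact h3

private theorem norm_zeta : ‖ζ‖ = 1 := by
  have h : ‖ζ‖ ^ 2 = 1 := by
    rw [Complex.sq_norm, Complex.normSq_apply]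
    simp only [ζ]
    have := Real.mul_self_sqrt (show (0 : ℝ) ≤ 3 by norm_num)
    nlinarith
  nlinarith [norm_nonneg ζ]

private noncomputable def EHom : ℤ × ℤ →+ ℂ where
  toFun := E
  map_zero' := by simp [E]
  map_add' := by
    intro v w
    simp only [E, Prod.fst_add, Prod.snd_add]
    push_cast
    ring

theorem approx (F : Set ℂ) (hF : F.Finite) (η : ℝ) (hη : 0 < η) :
    ∃ M : ℕ, 0 < M ∧ ∃ φ : AddSubgroup.closure F →+ ℤ × ℤ,
      ∀ f (hf : f ∈ F), ‖(M : ℂ) * f - E (φ ⟨f, AddSubgroup.subset_closure hf⟩)‖ ≤ η := by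
  classical
  let G := AddSubgroup.closure F
  have hfin : Module.Finite ℤ G := by
    rw [Module.Finite.iff_addGroup_fg]
    rw [AddGroup.fg_iff_addSubgroup_fg]
    exact ⟨hF.toFinset, by simp [G]⟩
  have hfree : Module.Free ℤ G := inferInstance
  let b := Module.finBasis ℤ G
  let x : ℂ → ℝ := fun z => z.re - z.im / Real.sqrt 3
  let y : ℂ → ℝ := fun z => 2 * z.im / Real.sqrt 3
  have h3 : Real.sqrt 3 ≠ 0 := by positivity
  have hxy : ∀ z : ℂ, z = (x z : ℂ) + (y z : ℂ) * ζ := by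
    intro z
    apply Complex.ext
    · simp only [x, y, ζ, Complex.add_re, Complex.mul_re, Complex.ofReal_re, Complex.ofReal_im]
      field_simp
      ring
    · simp only [x, y, ζ, Complex.add_im, Complex.mul_im, Complex.ofReal_re, Complex.ofReal_im]
      field_simp
      ring
  let r : G → Fin (Module.finrank ℤ G) → ℤ := fun g i => b.repr g i
  let Kf : G → ℝ := fun g => ∑ i, |(r g i : ℝ)|
  have hKf : ∀ g, 0 ≤ Kf g := fun g => Finset.sum_nonneg fun i _ => abs_nonneg _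
  obtain ⟨K, hK, hKle⟩ : ∃ K : ℝ, 0 ≤ K ∧ ∀ g : G, (g : ℂ) ∈ F → Kf g ≤ K := by
    have hfin' : {g : G | (g : ℂ) ∈ F}.Finite := hF.preimage Subtype.val_injective.injOn
    obtain ⟨K, hK⟩ := (hfin'.image Kf).bddAbove
    exact ⟨max K 0, le_max_right _ _, fun g hg => (hK ⟨g, hg, rfl⟩).trans (le_max_left _ _)⟩
  have hKfd : ∀ g, Kf g = ∑ i, |(r g i : ℝ)| := fun g => rfl
  clear_value Kf
  let c : Fin (Module.finrank ℤ G) ⊕ Fin (Module.finrank ℤ G) → ℝ :=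
    Sum.elim (fun i => x (b i)) (fun i => y (b i))
  obtain ⟨M, hM, p, hp⟩ := dirichlet1 c (η / (2 * (K + 1))) (by positivity)
  let φ : G →+ ℤ × ℤ := (b.constr ℤ (fun i => (p (Sum.inl i), p (Sum.inr i)))).toAddMonoidHom
  have hφb : ∀ i, φ (b i) = (p (Sum.inl i), p (Sum.inr i)) := by
    intro i
    change (b.constr ℤ (fun i => (p (Sum.inl i), p (Sum.inr i)))) (b i) = _
    rw [Module.Basis.constr_basis]
  let L : G →+ ℂ := (AddMonoidHom.mulLeft (M : ℂ)).comp G.subtype - EHom.comp φ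
  have hL : ∀ g : G, L g = (M : ℂ) * g - E (φ g) := fun g => rfl
  have hLb : ∀ i, ‖L (b i)‖ ≤ η / (K + 1) := by
    intro i
    rw [hL, hφb]
    have e1 : (M : ℂ) * (b i : ℂ) - E (p (Sum.inl i), p (Sum.inr i))
        = ((((M : ℝ) * x (b i) - p (Sum.inl i) : ℝ)) : ℂ) +
          ((((M : ℝ) * y (b i) - p (Sum.inr i) : ℝ)) : ℂ) * ζ := by
      conv_lhs => rw [hxy (b i : ℂ)]
      simp only [E]
      push_cast
      ring
    rw [e1]
    have h1 := hp (Sum.inl i)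
    have h2 := hp (Sum.inr i)
    calc _ ≤ ‖((((M : ℝ) * x (b i) - p (Sum.inl i) : ℝ)) : ℂ)‖ +
          ‖((((M : ℝ) * y (b i) - p (Sum.inr i) : ℝ)) : ℂ) * ζ‖ := norm_add_le _ _
      _ = |(M : ℝ) * x (b i) - p (Sum.inl i)| + |(M : ℝ) * y (b i) - p (Sum.inr i)| := by
          rw [norm_mul, norm_zeta, mul_one, Complex.norm_real, Complex.norm_real, Real.norm_eq_abs,
            Real.norm_eq_abs]
      _ ≤ η / (2 * (K + 1)) + η / (2 * (K + 1)) := add_le_add h1 h2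
      _ = η / (K + 1) := by field_simp; ring
  refine ⟨M, hM, φ, fun f hf => ?_⟩
  let g : G := ⟨f, AddSubgroup.subset_closure hf⟩
  change ‖L g‖ ≤ η
  have e2 : L g = ∑ i, (r g i) • L (b i) := by
    conv_lhs => rw [← b.sum_repr g]
    rw [map_sum]
    refine Finset.sum_congr rfl fun i _ => ?_
    rw [map_zsmul]
  rw [e2]
  calc ‖∑ i, (r g i) • L (b i)‖ ≤ ∑ i, ‖(r g i) • L (b i)‖ := norm_sum_le _ _
    _ ≤ ∑ i, |(r g i : ℝ)| * (η / (K + 1)) := by
        refine Finset.sum_le_sum fun i _ => ?_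
        rw [zsmul_eq_mul, norm_mul]
        refine mul_le_mul ?_ (hLb i) (norm_nonneg _) (abs_nonneg _)
        rw [Complex.norm_intCast]
    _ = Kf g * (η / (K + 1)) := by rw [← Finset.sum_mul, hKfd]
    _ ≤ K * (η / (K + 1)) := by
        refine mul_le_mul_of_nonneg_right (hKle g hf) (by positivity)
    _ ≤ η := by
        rw [mul_div_assoc', div_le_iff₀ (by positivity)]
        nlinarith

end Pool.Agent.K4H72.Til
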